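import Pool.Agent.X51.KE.Stm

/-! Part ASM: points of the real Euclidean space. -/

set_option autoImplicit false

namespace Pool.Agent.X61.KE

theorem t_ASM : Pool.Agent.X51.KE.S_ASM := by
  intro n K _ X y h
  classical
  obtain ⟨σ⟩ : Nonempty ((Fin (K + 1) × Fin 2) ⊕ Unit ≃ Fin (2 * K + 3)) :=
    ⟨Fintype.equivOfCardEq (by
      simp only [Fintype.card_sum, Fintype.card_prod, Fintype.card_fin, Fintype.card_unit]
      ring)⟩
  obtain ⟨c, hc⟩ : ∃ c : ZMod n → (Fin (K + 1) × Fin 2) ⊕ Unit → ℝ, c = fun i =>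
    Sum.elim (fun p => if p.2 = 0 then (X i p.1).re else (X i p.1).im) (fun _ => y i) := ⟨_, rfl⟩
  have hcl : ∀ i (l : Fin (K + 1)), c i (Sum.inl (l, 0)) = (X i l).re ∧
      c i (Sum.inl (l, 1)) = (X i l).im := by
    intro i l
    rw [hc]
    simp
  have hcr : ∀ i, c i (Sum.inr ()) = y i := by
    intro i
    rw [hc]
    rfl
  obtain ⟨P, hP⟩ : ∃ P : ZMod n → EuclideanSpace ℝ (Fin (2 * K + 3)),
    P = fun i => WithLp.toLp 2 (fun j => c i (σ.symm j)) := ⟨_, rfl⟩
  have hPj : ∀ i j, P i j = c i (σ.symm j) := by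
    intro i j
    rw [hP]
  refine ⟨P, ?_, ?_⟩
  · have hne : (Set.range P).Nonempty := ⟨P 0, 0, rfl⟩
    rw [AffineSubspace.affineSpan_eq_top_iff_vectorSpan_eq_top_of_nonempty _ _ _ hne]
    by_contra hV
    have hV2 : (vectorSpan ℝ (Set.range P))ᗮ ≠ ⊥ := fun h0 =>
      hV (Submodule.orthogonal_eq_bot_iff.1 h0)
    obtain ⟨v, hv, hv0⟩ := Submodule.exists_mem_ne_zero_of_ne_bot hV2
    have hin : ∀ i, inner ℝ (P i) v = inner ℝ (P 0) v := by
      intro i
      have h1 : P i -ᵥ P 0 ∈ vectorSpan ℝ (Set.range P) :=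
        vsub_mem_vectorSpan ℝ ⟨i, rfl⟩ ⟨0, rfl⟩
      have h2 := (Submodule.mem_orthogonal _ v).1 hv _ h1
      rw [vsub_eq_sub, inner_sub_left] at h2
      linarith
    have hexp : ∀ i, inner ℝ (P i) v = (∑ l, (starRingEnd ℂ
        (⟨v (σ (Sum.inl (l, 0))), v (σ (Sum.inl (l, 1)))⟩ : ℂ) * X i l)).re +
        v (σ (Sum.inr ())) * y i := by
      intro i
      rw [PiLp.inner_apply, ← Equiv.sum_comp σ, Fintype.sum_sum_type, Fintype.sum_prod_type,
        Complex.re_sum]
      congr 1
      · refine Finset.sum_congr rfl fun l _ => ?_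
        rw [Fin.sum_univ_two]
        simp only [hPj, Equiv.symm_apply_apply, (hcl i l).1, (hcl i l).2, Complex.mul_re,
          Complex.conj_re, Complex.conj_im]
        simp
      · simp only [hPj, Equiv.symm_apply_apply, hcr i, Finset.univ_unique, Finset.sum_singleton]
        simp
    obtain ⟨hw, ht⟩ := h (fun l => ⟨v (σ (Sum.inl (l, 0))), v (σ (Sum.inl (l, 1)))⟩)
      (v (σ (Sum.inr ()))) (inner ℝ (P 0) v) fun i => by rw [← hexp i, hin i]
    apply hv0
    ext j
    rw [← σ.apply_symm_apply j]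
    rcases σ.symm j with ⟨l, b⟩ | u
    · have h1 := congrFun hw l
      have h2 := congrArg Complex.re h1
      have h3 := congrArg Complex.im h1
      fin_cases b
      · exact h2
      · exact h3
    · exact ht
  · intro i i'
    rw [EuclideanSpace.dist_eq, Real.sq_sqrt (Finset.sum_nonneg fun j _ => sq_nonneg _),
      ← Equiv.sum_comp σ, Fintype.sum_sum_type, Fintype.sum_prod_type]
    congr 1
    · refine Finset.sum_congr rfl fun l _ => ?_
      rw [Fin.sum_univ_two]
      simp only [hPj, Equiv.symm_apply_apply, (hcl i l).1, (hcl i l).2, (hcl i' l).1,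
        (hcl i' l).2, Real.dist_eq, sq_abs, Complex.sq_norm, Complex.normSq_apply,
        Complex.sub_re, Complex.sub_im]
      ring
    · simp only [hPj, Equiv.symm_apply_apply, hcr, Finset.univ_unique, Finset.sum_singleton,
        Real.dist_eq, sq_abs]

end Pool.Agent.X61.KE
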